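import Pool.Agent.Lib.MP_524519_ag.DU5.AB.Iface

/-! # DU5/AB, module AFIL: the `f`-adic filtration of `R ⧸ A` -/

set_option autoImplicit false

namespace Pool.Agent.DU5.AB.H91

open Pool.Agent.DU5 Pool.Agent.DU5.AB

/-- AFIL. -/
theorem afil (hL : LCOLStatement) : AFILStatement := by
  intro k R _ _ _ p A f Q hp hQ
  have key : ∀ j ≤ p, len k (A ⊔ Ideal.span {f ^ j}) ≤
      ∑ i ∈ Finset.range j, len k (Ideal.span {f} ⊔ Q i) := by
    intro j
    induction j with
    | zero =>
      intro _
      have h : (A ⊔ Ideal.span {f ^ 0} : Ideal R) = ⊤ := by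
        rw [pow_zero, Ideal.span_singleton_one, sup_top_eq]
      rw [h, Finset.range_zero, Finset.sum_empty]
      have : Subsingleton (R ⧸ (⊤ : Ideal R)) := Ideal.Quotient.subsingleton_iff.mpr rfl
      unfold len
      rw [Module.length_eq_zero]
    | succ j ih =>
      intro hj
      have hj' : j < p := hj
      have ih' := ih hj'.le
      rw [Finset.sum_range_succ]
      have h1 := hL k R (A ⊔ Ideal.span {f ^ (j + 1)}) (Ideal.span {f} ⊔ Q j) (f ^ j) (by
        intro q hq
        obtain ⟨a, ha, b, hb, rfl⟩ := Submodule.mem_sup.mp hq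
        rw [mul_add]
        refine Ideal.add_mem _ ?_ ?_
        · obtain ⟨c, rfl⟩ := Ideal.mem_span_singleton'.mp ha
          refine Ideal.mem_sup_right ?_
          rw [Ideal.mem_span_singleton]
          exact ⟨c, by ring⟩
        · obtain ⟨r, hr⟩ := hQ j hj' b hb
          have h2 : f ^ j * b = (f ^ j * b + f ^ (j + 1) * r) - f ^ (j + 1) * r := by ring
          rw [h2]
          refine Ideal.sub_mem _ (Ideal.mem_sup_left hr) (Ideal.mem_sup_right ?_)
          rw [Ideal.mem_span_singleton]
          exact ⟨r, rfl⟩)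
      refine h1.trans ?_
      refine add_le_add ?_ le_rfl
      refine (len_mono ?_).trans ih'
      exact sup_le_sup le_sup_left le_rfl
  have h := key p le_rfl
  have hA : (A ⊔ Ideal.span {f ^ p} : Ideal R) = A := by
    rw [sup_eq_left, Ideal.span_singleton_le_iff_mem]
    exact hp
  rwa [hA] at h

end Pool.Agent.DU5.AB.H91
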